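import Pool.Agent.Q224.BP.Main

/-!
# The main argument
-/

set_option autoImplicit false

namespace Q224.BP

open Finset

variable {q d : ℕ} {β : ℝ}

theorem cnt_eq_zero {τ : Fin d → Fin q} {c : Fin q} (h : ∀ i, τ i ≠ c) : cnt τ c = 0 := by
  unfold cnt
  rw [card_eq_zero]
  exact filter_eq_empty_iff.2 fun i _ => h i

theorem cnt_eq_one {τ : Fin d → Fin q} {c : Fin q} {i : Fin d} (h : ∀ j, τ j = c ↔ j = i) :
    cnt τ c = 1 := by
  unfold cnt
  rw [card_eq_one]
  exact ⟨i, by ext j; simp [h]⟩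

theorem exists_of_cnt {τ : Fin d → Fin q} {c : Fin q} (h : 0 < cnt τ c) : ∃ i, τ i = c := by
  unfold cnt at h
  rw [card_pos] at h
  obtain ⟨i, hi⟩ := h
  exact ⟨i, by simpa using hi⟩

theorem unique_of_cnt {τ : Fin d → Fin q} {c : Fin q} (h : cnt τ c ≤ 1) {i j : Fin d}
    (hi : τ i = c) (hj : τ j = c) : i = j := by
  unfold cnt at h
  rw [card_le_one] at h
  exact h i (by simp [hi]) j (by simp [hj])

theorem sum4 {c1 c2 c3 c4 : Fin q} (h12 : c1 ≠ c2) (h13 : c1 ≠ c3) (h14 : c1 ≠ c4) (h23 : c2 ≠ c3)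
    (h24 : c2 ≠ c4) (h34 : c3 ≠ c4) (τ : Fin d → Fin q) :
    cnt τ c1 + cnt τ c2 + cnt τ c3 + cnt τ c4 ≤ d := by
  have := sum_cnt_le τ {c1, c2, c3, c4}
  rw [sum_insert (by simp [h12, h13, h14]), sum_insert (by simp [h23, h24]),
    sum_insert (by simp [h34]), sum_singleton] at this
  omega

/-- the coefficients of a linear functional supported on four colours -/
def coef (c1 c2 c3 c4 : Fin q) (x1 x2 x3 x4 : ℝ) (c : Fin q) : ℝ :=
  (if c = c1 then x1 else 0) + (if c = c2 then x2 else 0) + (if c = c3 then x3 else 0) +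
    (if c = c4 then x4 else 0)

theorem sum_coef (c1 c2 c3 c4 : Fin q) (x1 x2 x3 x4 : ℝ) (v : Fin q → ℝ) :
    ∑ c, coef c1 c2 c3 c4 x1 x2 x3 x4 c * v c = x1 * v c1 + x2 * v c2 + x3 * v c3 + x4 * v c4 := by
  unfold coef
  simp only [add_mul, sum_add_distrib, ite_mul, zero_mul, sum_ite_eq', mem_univ, if_true]

theorem core {p : Fin d → Fin q → ℝ} {K : ℕ} (hd : d = K + 2) {c1 c2 c3 c4 : Fin q}
    (h12 : c1 ≠ c2) (h13 : c1 ≠ c3) (h14 : c1 ≠ c4) (h23 : c2 ≠ c3)
    (h24 : c2 ≠ c4) (h34 : c3 ≠ c4)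
    (hg : ∀ τ : Fin d → Fin q, Good p τ → (cnt τ c1 = K ∨ cnt τ c1 = K + 1) ∧ cnt τ c2 ≤ 1 ∧
      cnt τ c3 ≤ 1 ∧ cnt τ c4 = 0 ∧ cnt τ c1 + cnt τ c2 + cnt τ c3 = K + 2)
    (e1 : ∃ τ : Fin d → Fin q, Good p τ ∧ cnt τ c1 = K)
    (e2 : ∃ τ : Fin d → Fin q, Good p τ ∧ cnt τ c2 = 0)
    (e3 : ∃ τ : Fin d → Fin q, Good p τ ∧ cnt τ c3 = 0) : False := by
  classical
  -- all letters of good words are among the first three colours
  have hlet : ∀ τ : Fin d → Fin q, Good p τ → ∀ i, τ i = c1 ∨ τ i = c2 ∨ τ i = c3 := by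
    intro τ hτ i
    by_contra hcon
    push Not at hcon
    have h1 := sum4 h12 h13 hcon.1.symm h23 hcon.2.1.symm hcon.2.2.symm τ
    have h2 := (hg τ hτ).2.2.2.2
    have h3 : 0 < cnt τ (τ i) := cnt_pos rfl
    omega
  obtain ⟨t1, g1, k1⟩ := e1
  obtain ⟨t2, g2, k2⟩ := e2
  obtain ⟨t3, g3, k3⟩ := e3
  have f1 := hg t1 g1
  have f2 := hg t2 g2
  have f3 := hg t3 g3
  obtain ⟨i, hi⟩ := exists_of_cnt (τ := t1) (c := c2) (by omega)
  obtain ⟨j, hj⟩ := exists_of_cnt (τ := t1) (c := c3) (by omega)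
  have hij : i ≠ j := by
    rintro rfl
    exact h23 (hi.symm.trans hj)
  obtain ⟨l, hl⟩ := exists_of_cnt (τ := t2) (c := c3) (by omega)
  obtain ⟨k, hk⟩ := exists_of_cnt (τ := t3) (c := c2) (by omega)
  have hl' : ∀ m, m ≠ l → t2 m = c1 := by
    intro m hm
    rcases hlet t2 g2 m with h | h | h
    · exact h
    · have := cnt_pos h
      omega
    · exact absurd (unique_of_cnt f2.2.2.1 h hl) hm
  have hk' : ∀ m, m ≠ k → t3 m = c1 := by
    intro m hm
    rcases hlet t3 g3 m with h | h | h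
    · exact h
    · exact absurd (unique_of_cnt f3.2.1 h hk) hm
    · have := cnt_pos h
      omega
  by_cases hkl : k = l
  · subst hkl
    by_cases hik : i = k
    · have hjk : j ≠ k := fun h => hij (hik.trans h.symm)
      have hgood : Good p (fun m => if m = j then t1 m else t2 m) := by
        intro m
        beta_reduce
        split_ifs
        · exact g1 m
        · exact g2 m
      have h1 := (hg _ hgood).2.2.1
      exact hjk (unique_of_cnt h1 (i := j) (j := k) (by simp [hj]) (by simp [hjk.symm, hl]))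
    · have hgood : Good p (fun m => if m = i then t1 m else t3 m) := by
        intro m
        beta_reduce
        split_ifs
        · exact g1 m
        · exact g3 m
      have h1 := (hg _ hgood).2.1
      exact hik (unique_of_cnt h1 (i := i) (j := k) (by simp [hi])
        (by rw [if_neg (fun h : k = i => hik h.symm)]; exact hk))
  · have hgood : Good p (fun m => if m = l then t3 m else t2 m) := by
      intro m
      beta_reduce
      split_ifs
      · exact g3 m
      · exact g2 m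
    have hall : ∀ m, (fun m => if m = l then t3 m else t2 m) m = c1 := by
      intro m
      beta_reduce
      split_ifs with h
      · exact hk' m (by rw [h]; exact fun h' => hkl h'.symm)
      · exact hl' m h
    have h1 := (hg _ hgood).2.2.2.2
    have h2 := (hg _ hgood).1
    have h3 : cnt (fun m => if m = l then t3 m else t2 m) c2 = 0 :=
      cnt_eq_zero fun m h => h12 ((hall m).symm.trans h)
    have h4 : cnt (fun m => if m = l then t3 m else t2 m) c3 = 0 :=
      cnt_eq_zero fun m h => h13 ((hall m).symm.trans h)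
    omega

theorem not_convex {K : ℕ} (hd : d = K + 2) (h0 : 0 ≤ β) (h1 : β < 1) (hK : 0 < β ∨ K = 0)
    {c1 c2 c3 c4 : Fin q}
    (h12 : c1 ≠ c2) (h13 : c1 ≠ c3) (h14 : c1 ≠ c4) (h23 : c2 ≠ c3)
    (h24 : c2 ≠ c4) (h34 : c3 ≠ c4) : ¬ Convex ℝ (Fprod q d β) := by
  classical
  intro hconv
  subst hd
  have hpK : 0 < β ^ K := by
    rcases hK with h | rfl
    · exact pow_pos h K
    · simp
  set i0 : Fin (K + 2) := 0 with hi0
  set i1 : Fin (K + 2) := 1 with hi1
  have hi01 : i0 ≠ i1 := by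
    rw [hi0, hi1]
    intro h
    have := congrArg Fin.val h
    simp at this
  set t1 : Fin (K + 2) → Fin q := fun i => if i = i0 then c2 else if i = i1 then c3 else c1
    with ht1
  set t2 : Fin (K + 2) → Fin q := fun i => if i = i0 then c3 else c1 with ht2
  set t3 : Fin (K + 2) → Fin q := fun i => if i = i0 then c2 else c1 with ht3
  -- counts
  have n12 : cnt t1 c2 = 1 := cnt_eq_one (i := i0) fun j => by
    simp only [ht1]
    split_ifs with a b
    · simp [a]
    · simp [a, h23.symm]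
    · simp [a, h12]
  have n13 : cnt t1 c3 = 1 := cnt_eq_one (i := i1) fun j => by
    simp only [ht1]
    split_ifs with a b
    · simp [a, h23, hi01]
    · simp [b]
    · simp [b, h13]
  have n14 : cnt t1 c4 = 0 := cnt_eq_zero fun j => by
    simp only [ht1]
    split_ifs with a b
    · exact h24
    · exact h34
    · exact h14
  have n11 : cnt t1 c1 = K := by
    have e : univ.filter (fun i => t1 i = c1) = {i0, i1}ᶜ := by
      ext j
      simp only [ht1, mem_filter, mem_univ, true_and, mem_compl, mem_insert, mem_singleton]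
      split_ifs with a b
      · simp [a, h12.symm]
      · simp [b, h13.symm]
      · simp [a, b]
    unfold cnt
    rw [e, card_compl, card_pair hi01]
    simp
  have n22 : cnt t2 c2 = 0 := cnt_eq_zero fun j => by
    simp only [ht2]
    split_ifs
    · exact h23.symm
    · exact h12
  have n23 : cnt t2 c3 = 1 := cnt_eq_one (i := i0) fun j => by
    simp only [ht2]
    split_ifs with a
    · simp [a]
    · simp [a, h13]
  have n24 : cnt t2 c4 = 0 := cnt_eq_zero fun j => by
    simp only [ht2]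
    split_ifs
    · exact h34
    · exact h14
  have n21 : cnt t2 c1 = K + 1 := by
    have e : univ.filter (fun i => t2 i = c1) = {i0}ᶜ := by
      ext j
      simp only [ht2, mem_filter, mem_univ, true_and, mem_compl, mem_singleton]
      split_ifs with a
      · simp [a, h13.symm]
      · simp [a]
    unfold cnt
    rw [e, card_compl, card_singleton]
    simp
  have n32 : cnt t3 c2 = 1 := cnt_eq_one (i := i0) fun j => by
    simp only [ht3]
    split_ifs with a
    · simp [a]
    · simp [a, h12]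
  have n33 : cnt t3 c3 = 0 := cnt_eq_zero fun j => by
    simp only [ht3]
    split_ifs
    · exact h23
    · exact h13
  have n34 : cnt t3 c4 = 0 := cnt_eq_zero fun j => by
    simp only [ht3]
    split_ifs
    · exact h24
    · exact h14
  have n31 : cnt t3 c1 = K + 1 := by
    have e : univ.filter (fun i => t3 i = c1) = {i0}ᶜ := by
      ext j
      simp only [ht3, mem_filter, mem_univ, true_and, mem_compl, mem_singleton]
      split_ifs with a
      · simp [a, h12.symm]
      · simp [a]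
    unfold cnt
    rw [e, card_compl, card_singleton]
    simp
  -- the convex combination
  have hy : (1 / 2 : ℝ) • pt β t2 + (1 / 2 : ℝ) • pt β t3 ∈ Fprod q (K + 2) β :=
    hconv (pt_mem β t2) (pt_mem β t3) (by norm_num) (by norm_num) (by norm_num)
  have hx := hconv (pt_mem β t1) hy (a := 1 / 2) (b := 1 / 2) (by norm_num) (by norm_num)
    (by norm_num)
  obtain ⟨p, hp, hx⟩ := hx
  have hS : ∀ t : Fin (K + 2) → Fin q, cnt t c4 = 0 → 0 < ∑ b, β ^ cnt t b := by
    intro t ht
    refine lt_of_lt_of_le ?_ (single_le_sum (f := fun b => β ^ cnt t b)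
      (fun b _ => pow_nonneg h0 _) (mem_univ c4))
    rw [ht]
    norm_num
  obtain ⟨s1, hs1⟩ : ∃ s1, s1 = 1 / 2 / ∑ b, β ^ cnt t1 b := ⟨_, rfl⟩
  obtain ⟨s2, hs2⟩ : ∃ s2, s2 = 1 / 4 / ∑ b, β ^ cnt t2 b := ⟨_, rfl⟩
  obtain ⟨s3, hs3⟩ : ∃ s3, s3 = 1 / 4 / ∑ b, β ^ cnt t3 b := ⟨_, rfl⟩
  have p1 : 0 < s1 := by rw [hs1]; exact div_pos (by norm_num) (hS t1 n14)
  have p2 : 0 < s2 := by rw [hs2]; exact div_pos (by norm_num) (hS t2 n24)
  have p3 : 0 < s3 := by rw [hs3]; exact div_pos (by norm_num) (hS t3 n34)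
  have hxc : ∀ c, F q (K + 2) β (fun τ => ∏ i, p i (τ i)) c =
      s1 * β ^ cnt t1 c + s2 * β ^ cnt t2 c + s3 * β ^ cnt t3 c := by
    intro c
    rw [← hx, hs1, hs2, hs3]
    simp only [Pi.add_apply, Pi.smul_apply, smul_eq_mul, pt]
    ring
  set μ : (Fin (K + 2) → Fin q) → ℝ := fun τ => ∏ i, p i (τ i) with hμ
  set s := ∑ b, G q (K + 2) β μ b with hs
  have hGnn : ∀ c, 0 ≤ G q (K + 2) β μ c := by
    intro c
    unfold G
    refine sum_nonneg fun τ _ => mul_nonneg (prod_nonneg' hp τ) ?_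
    rw [prod_A]
    exact pow_nonneg h0 _
  have hsnn : 0 ≤ s := sum_nonneg fun c _ => hGnn c
  have hs0 : s ≠ 0 := by
    intro h
    have h2 := hxc c4
    have h3 : F q (K + 2) β μ c4 = 0 := by
      show G q (K + 2) β μ c4 / s = 0
      rw [h, div_zero]
    rw [h3, n14, n24, n34] at h2
    simp only [pow_zero, mul_one] at h2
    linarith
  have hspos : 0 < s := lt_of_le_of_ne hsnn hs0.symm
  have hG : ∀ c, G q (K + 2) β μ c =
      s * (s1 * β ^ cnt t1 c + s2 * β ^ cnt t2 c + s3 * β ^ cnt t3 c) := by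
    intro c
    rw [← hxc c]
    show _ = s * (G q (K + 2) β μ c / s)
    field_simp
  have hgood : ∀ τ : Fin (K + 2) → Fin q, Good p τ → (cnt τ c1 = K ∨ cnt τ c1 = K + 1) ∧
      cnt τ c2 ≤ 1 ∧ cnt τ c3 ≤ 1 ∧ cnt τ c4 = 0 ∧ cnt τ c1 + cnt τ c2 + cnt τ c3 = K + 2 := by
    intro τ hτ
    have h2 := vanish (β := β) hp (coef c1 c2 c3 c4 1 (β ^ K) (β ^ K)
      (-(β ^ K * (3 - 2 * (1 - β))))) (by
        intro σ
        rw [sum_coef (v := fun c => β ^ cnt σ c)]
        have := (func h0 h1 hK (sum4 h12 h13 h14 h23 h24 h34 σ)).1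
        linarith) (by
        rw [sum_coef (v := G q (K + 2) β (fun τ => ∏ i, p i (τ i)))]
        rw [hG, hG, hG, hG, n11, n12, n13, n14, n21, n22, n23, n24, n31, n32, n33, n34]
        ring) hτ
    rw [sum_coef (v := fun c => β ^ cnt τ c)] at h2
    refine (func h0 h1 hK (sum4 h12 h13 h14 h23 h24 h34 τ)).2 ?_
    linarith
  refine core rfl h12 h13 h14 h23 h24 h34 hgood ?_ ?_ ?_
  · obtain ⟨τ, hτ, hlt⟩ := exists_good (β := β) hp (coef c1 c2 c3 c4 1 0 0 (-β ^ (K + 1))) (by
      rw [sum_coef (v := G q (K + 2) β (fun τ => ∏ i, p i (τ i)))]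
      rw [hG, hG, hG, hG, n11, n12, n13, n14, n21, n22, n23, n24, n31, n32, n33, n34]
      have : 0 < s * (s1 * (β ^ K * (1 - β))) :=
        mul_pos hspos (mul_pos p1 (mul_pos hpK (by linarith)))
      rw [pow_succ]
      linarith)
    rw [sum_coef (v := fun c => β ^ cnt τ c)] at hlt
    refine ⟨τ, hτ, ?_⟩
    have h2 := hgood τ hτ
    rcases h2.1 with h | h
    · exact h
    · rw [h, h2.2.2.2.1] at hlt
      simp at hlt
  · obtain ⟨τ, hτ, hlt⟩ := exists_good (β := β) hp (coef c1 c2 c3 c4 0 1 0 (-β)) (by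
      rw [sum_coef (v := G q (K + 2) β (fun τ => ∏ i, p i (τ i)))]
      rw [hG, hG, hG, hG, n11, n12, n13, n14, n21, n22, n23, n24, n31, n32, n33, n34]
      have : 0 < s * (s2 * (1 - β)) := mul_pos hspos (mul_pos p2 (by linarith))
      simp only [pow_zero, pow_one]
      linarith)
    rw [sum_coef (v := fun c => β ^ cnt τ c)] at hlt
    refine ⟨τ, hτ, ?_⟩
    have h2 := hgood τ hτ
    rcases Nat.lt_or_ge (cnt τ c2) 1 with h | h
    · omega
    · have h3 : cnt τ c2 = 1 := by omega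
      rw [h3, h2.2.2.2.1] at hlt
      simp at hlt
  · obtain ⟨τ, hτ, hlt⟩ := exists_good (β := β) hp (coef c1 c2 c3 c4 0 0 1 (-β)) (by
      rw [sum_coef (v := G q (K + 2) β (fun τ => ∏ i, p i (τ i)))]
      rw [hG, hG, hG, hG, n11, n12, n13, n14, n21, n22, n23, n24, n31, n32, n33, n34]
      have : 0 < s * (s3 * (1 - β)) := mul_pos hspos (mul_pos p3 (by linarith))
      simp only [pow_zero, pow_one]
      linarith)
    rw [sum_coef (v := fun c => β ^ cnt τ c)] at hlt
    refine ⟨τ, hτ, ?_⟩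
    have h2 := hgood τ hτ
    rcases Nat.lt_or_ge (cnt τ c3) 1 with h | h
    · omega
    · have h3 : cnt τ c3 = 1 := by omega
      rw [h3, h2.2.2.2.1] at hlt
      simp at hlt

end Q224.BP
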