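import Mathlib

/-!
# The image of product measures under the belief-propagation map of the Potts model
-/

set_option autoImplicit false

namespace Q224.BP

/-- The Potts interaction matrix: `β` on the diagonal and `1` elsewhere. -/
def A (q : ℕ) (β : ℝ) (c b : Fin q) : ℝ := if c = b then β else 1

/-- `G_c(μ)`, the expectation of `∏ A c (τ i)` when `τ` has the law `μ`. -/
def G (q d : ℕ) (β : ℝ) (μ : (Fin d → Fin q) → ℝ) (c : Fin q) : ℝ :=
  ∑ τ : Fin d → Fin q, μ τ * ∏ i : Fin d, A q β c (τ i)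

/-- The belief-propagation map. -/
noncomputable def F (q d : ℕ) (β : ℝ) (μ : (Fin d → Fin q) → ℝ) : Fin q → ℝ :=
  fun c => G q d β μ c / ∑ b : Fin q, G q d β μ b

/-- The image of the product measures `p 0 ⊗ ... ⊗ p (d - 1)`. -/
noncomputable def Fprod (q d : ℕ) (β : ℝ) : Set (Fin q → ℝ) :=
  {x | ∃ p : Fin d → Fin q → ℝ, (∀ i, p i ∈ stdSimplex ℝ (Fin q)) ∧
    x = F q d β (fun τ => ∏ i : Fin d, p i (τ i))}

end Q224.BP
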