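import Pool.Agent.Q224.BP.Defs

/-!
# Non-convexity for `q ≥ 4`, `d ≥ 2`
-/

set_option autoImplicit false

namespace Q224.BP

open Finset

variable {q d : ℕ} {β : ℝ}

/-- number of positions with colour `c` -/
def cnt (τ : Fin d → Fin q) (c : Fin q) : ℕ := (univ.filter (fun i => τ i = c)).card

theorem prod_A (τ : Fin d → Fin q) (c : Fin q) : ∏ i : Fin d, A q β c (τ i) = β ^ cnt τ c := by
  unfold A cnt
  rw [prod_ite]
  simp only [prod_const, one_pow, mul_one]
  congr 2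
  ext i
  simp [eq_comm]

theorem sum_cnt (τ : Fin d → Fin q) : ∑ c, cnt τ c = d := by
  unfold cnt
  rw [← card_eq_sum_card_fiberwise (f := τ) (s := univ) (t := univ) (fun _ _ => by simp)]
  simp

theorem sum_cnt_le (τ : Fin d → Fin q) (S : Finset (Fin q)) : ∑ c ∈ S, cnt τ c ≤ d := by
  conv_rhs => rw [← sum_cnt τ]
  exact sum_le_sum_of_subset (subset_univ S)

theorem cnt_pos {τ : Fin d → Fin q} {i : Fin d} {c : Fin q} (h : τ i = c) : 0 < cnt τ c := by
  unfold cnt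
  rw [card_pos]
  exact ⟨i, by simp [h]⟩

/-- a word is good if it has positive probability -/
def Good (p : Fin d → Fin q → ℝ) (τ : Fin d → Fin q) : Prop := ∀ i, 0 < p i (τ i)

theorem good_iff {p : Fin d → Fin q → ℝ} (hp : ∀ i, p i ∈ stdSimplex ℝ (Fin q))
    {τ : Fin d → Fin q} : Good p τ ↔ ∏ i, p i (τ i) ≠ 0 := by
  constructor
  · intro h
    exact (prod_pos fun i _ => h i).ne'
  · intro h i
    rw [prod_ne_zero_iff] at h
    exact lt_of_le_of_ne ((hp i).1 _) (h i (mem_univ i)).symm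

theorem prod_nonneg' {p : Fin d → Fin q → ℝ} (hp : ∀ i, p i ∈ stdSimplex ℝ (Fin q))
    (τ : Fin d → Fin q) : 0 ≤ ∏ i, p i (τ i) := prod_nonneg fun i _ => (hp i).1 _

/-- linear functionals of `G` which are nonnegative on words and vanish at `G` vanish on all good
words -/
theorem vanish {p : Fin d → Fin q → ℝ} (hp : ∀ i, p i ∈ stdSimplex ℝ (Fin q)) (a : Fin q → ℝ)
    (hpos : ∀ τ : Fin d → Fin q, 0 ≤ ∑ c, a c * β ^ cnt τ c)
    (h0 : ∑ c, a c * G q d β (fun τ => ∏ i, p i (τ i)) c = 0) {τ : Fin d → Fin q}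
    (hτ : Good p τ) : ∑ c, a c * β ^ cnt τ c = 0 := by
  have h1 : ∑ c, a c * G q d β (fun τ => ∏ i, p i (τ i)) c =
      ∑ τ : Fin d → Fin q, (∏ i, p i (τ i)) * ∑ c, a c * β ^ cnt τ c := by
    unfold G
    simp_rw [mul_sum]
    rw [sum_comm]
    refine sum_congr rfl fun τ _ => sum_congr rfl fun c _ => ?_
    rw [prod_A]
    ring
  rw [h1, sum_eq_zero_iff_of_nonneg (fun τ _ => mul_nonneg (prod_nonneg' hp τ) (hpos τ))] at h0
  have h2 := h0 τ (mem_univ τ)
  rcases mul_eq_zero.1 h2 with h | h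
  · exact absurd h (good_iff hp |>.1 hτ)
  · exact h

/-- linear functionals which are positive at `G` are positive on some good word -/
theorem exists_good {p : Fin d → Fin q → ℝ} (hp : ∀ i, p i ∈ stdSimplex ℝ (Fin q)) (a : Fin q → ℝ)
    (h0 : 0 < ∑ c, a c * G q d β (fun τ => ∏ i, p i (τ i)) c) :
    ∃ τ : Fin d → Fin q, Good p τ ∧ 0 < ∑ c, a c * β ^ cnt τ c := by
  have h1 : ∑ c, a c * G q d β (fun τ => ∏ i, p i (τ i)) c =
      ∑ τ : Fin d → Fin q, (∏ i, p i (τ i)) * ∑ c, a c * β ^ cnt τ c := by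
    unfold G
    simp_rw [mul_sum]
    rw [sum_comm]
    refine sum_congr rfl fun τ _ => sum_congr rfl fun c _ => ?_
    rw [prod_A]
    ring
  rw [h1] at h0
  obtain ⟨τ, -, hτ⟩ := exists_lt_of_sum_lt (f := fun _ => (0 : ℝ)) (s := univ) (by simpa using h0)
  refine ⟨τ, (good_iff hp).2 ?_, ?_⟩
  · intro h
    rw [h, zero_mul] at hτ
    exact lt_irrefl _ hτ
  · by_contra hcon
    have := mul_nonpos_of_nonneg_of_nonpos (prod_nonneg' hp τ) (not_lt.1 hcon)
    linarith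

/-! ### deterministic points -/

/-- the image of the point mass at `τ` -/
noncomputable def pt (β : ℝ) (τ : Fin d → Fin q) : Fin q → ℝ :=
  fun c => β ^ cnt τ c / ∑ b, β ^ cnt τ b

theorem pt_mem (β : ℝ) (τ : Fin d → Fin q) : pt β τ ∈ Fprod q d β := by
  classical
  refine ⟨fun i c => if τ i = c then 1 else 0, ?_, ?_⟩
  · intro i
    constructor
    · intro c
      beta_reduce
      split_ifs <;> norm_num
    · simp
  · have h : ∀ c, G q d β (fun σ => ∏ i : Fin d, (fun i c => if τ i = c then (1 : ℝ) else 0) i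
        (σ i)) c = β ^ cnt τ c := by
      intro c
      unfold G
      rw [sum_eq_single τ]
      · rw [prod_A]
        simp
      · intro σ _ hσ
        have : ∃ i, τ i ≠ σ i := by
          by_contra hcon
          push Not at hcon
          exact hσ (funext fun i => (hcon i).symm)
        obtain ⟨i, hi⟩ := this
        beta_reduce
        rw [prod_eq_zero (mem_univ i) (if_neg hi), zero_mul]
      · intro h
        exact absurd (mem_univ _) h
    unfold F pt
    funext c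
    simp only [h]

/-! ### Bernoulli inequalities -/

theorem bern {β : ℝ} (h0 : 0 ≤ β) (h1 : β < 1) : ∀ n : ℕ, 1 - n * (1 - β) ≤ β ^ n ∧
    (2 ≤ n → 1 - n * (1 - β) < β ^ n) := by
  intro n
  induction n with
  | zero => simp
  | succ n ih =>
    have h2 : 1 - ((n : ℝ) + 1) * (1 - β) ≤ β * (1 - n * (1 - β)) := by
      nlinarith [sq_nonneg (1 - β), (Nat.cast_nonneg n : (0 : ℝ) ≤ n)]
    have h2' : 1 ≤ n → 1 - ((n : ℝ) + 1) * (1 - β) < β * (1 - n * (1 - β)) := by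
      intro hn
      have hn' : (1 : ℝ) ≤ n := by exact_mod_cast hn
      nlinarith [mul_pos (sub_pos.2 h1) (sub_pos.2 h1)]
    have h3 : β * (1 - n * (1 - β)) ≤ β ^ (n + 1) := by
      rw [pow_succ']
      exact mul_le_mul_of_nonneg_left ih.1 h0
    push_cast
    refine ⟨h2.trans h3, fun hn => (h2' (by omega)).trans_le h3⟩

theorem bern_neg {β : ℝ} (h0 : 0 < β) (h1 : β < 1) : ∀ j : ℕ,
    β ^ j * (1 + j * (1 - β)) ≤ 1 ∧ (1 ≤ j → β ^ j * (1 + j * (1 - β)) < 1) := by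
  intro j
  induction j with
  | zero => simp
  | succ n ih =>
    have hp : 0 < β ^ n := pow_pos h0 n
    have h2 : β * (1 + (n + 1) * (1 - β)) < 1 + n * (1 - β) := by
      nlinarith [mul_pos (sub_pos.2 h1) (sub_pos.2 h1), (Nat.cast_nonneg n : (0 : ℝ) ≤ n),
        mul_nonneg (Nat.cast_nonneg n : (0 : ℝ) ≤ n) (mul_pos (sub_pos.2 h1) (sub_pos.2 h1)).le]
    have h3 : β ^ (n + 1) * (1 + ((n : ℝ) + 1) * (1 - β)) < 1 := by
      calc β ^ (n + 1) * (1 + ((n : ℝ) + 1) * (1 - β))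
          = β ^ n * (β * (1 + (n + 1) * (1 - β))) := by ring
        _ < β ^ n * (1 + n * (1 - β)) := mul_lt_mul_of_pos_left h2 hp
        _ ≤ 1 := ih.1
    push_cast
    exact ⟨h3.le, fun _ => h3⟩

/-- the shifted inequality -/
theorem bern_shift {β : ℝ} (h0 : 0 ≤ β) (h1 : β < 1) {K : ℕ} (hK : 0 < β ∨ K = 0) (n : ℕ) :
    β ^ K * (1 - ((n : ℝ) - K) * (1 - β)) ≤ β ^ n ∧
    (β ^ K * (1 - ((n : ℝ) - K) * (1 - β)) = β ^ n → n = K ∨ n = K + 1) := by
  rcases le_or_gt K n with h | h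
  · obtain ⟨j, rfl⟩ := Nat.exists_eq_add_of_le h
    have hpK : 0 < β ^ K := by
      rcases hK with h | rfl
      · exact pow_pos h K
      · simp
    obtain ⟨b1, b2⟩ := bern h0 h1 j
    have e : ((K + j : ℕ) : ℝ) - K = j := by push_cast; ring
    rw [e, pow_add]
    refine ⟨mul_le_mul_of_nonneg_left b1 hpK.le, ?_⟩
    intro heq
    by_contra hcon
    have hj : 2 ≤ j := by omega
    have := mul_lt_mul_of_pos_left (b2 hj) hpK
    linarith
  · rcases hK with hβ | rfl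
    · obtain ⟨j, rfl⟩ := Nat.exists_eq_add_of_le h.le
      have hpn : 0 < β ^ n := pow_pos hβ n
      have hj : 1 ≤ j := by omega
      have b2 := (bern_neg hβ h1 j).2 hj
      have e : (1 : ℝ) - ((n : ℝ) - ((n + j : ℕ) : ℝ)) * (1 - β) = 1 + j * (1 - β) := by
        push_cast; ring
      rw [e, pow_add]
      have h3 : β ^ n * β ^ j * (1 + j * (1 - β)) < β ^ n := by
        calc β ^ n * β ^ j * (1 + j * (1 - β)) = β ^ n * (β ^ j * (1 + j * (1 - β))) := by ring
          _ < β ^ n * 1 := mul_lt_mul_of_pos_left b2 hpn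
          _ = β ^ n := mul_one _
      exact ⟨h3.le, fun h => absurd h h3.ne⟩
    · omega

/-- the functional -/
theorem func {β : ℝ} (h0 : 0 ≤ β) (h1 : β < 1) {K : ℕ} (hK : 0 < β ∨ K = 0) {a b c e : ℕ}
    (hs : a + b + c + e ≤ K + 2) :
    0 ≤ β ^ a + β ^ K * β ^ b + β ^ K * β ^ c - β ^ K * (3 - 2 * (1 - β)) * β ^ e ∧
    (β ^ a + β ^ K * β ^ b + β ^ K * β ^ c - β ^ K * (3 - 2 * (1 - β)) * β ^ e = 0 →
      (a = K ∨ a = K + 1) ∧ b ≤ 1 ∧ c ≤ 1 ∧ e = 0 ∧ a + b + c = K + 2) := by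
  have hpK : 0 < β ^ K := by
    rcases hK with h | rfl
    · exact pow_pos h K
    · simp
  obtain ⟨s1, s2⟩ := bern_shift h0 h1 hK a
  obtain ⟨b1, b2⟩ := bern h0 h1 b
  obtain ⟨c1, c2⟩ := bern h0 h1 c
  have e1 : β ^ e ≤ 1 := pow_le_one₀ h0 h1.le
  have hs' : (a : ℝ) + b + c + e ≤ K + 2 := by exact_mod_cast hs
  have hε : 0 < 1 - β := by linarith
  -- the four nonnegative parts
  have t1 : 0 ≤ β ^ a - β ^ K * (1 - ((a : ℝ) - K) * (1 - β)) := by linarith
  have t2 : 0 ≤ β ^ K * (β ^ b - (1 - b * (1 - β))) := mul_nonneg hpK.le (by linarith)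
  have t3 : 0 ≤ β ^ K * (β ^ c - (1 - c * (1 - β))) := mul_nonneg hpK.le (by linarith)
  have t4 : 0 ≤ β ^ K * ((3 - 2 * (1 - β)) * (1 - β ^ e)) :=
    mul_nonneg hpK.le (mul_nonneg (by linarith) (by linarith))
  have t5 : 0 ≤ β ^ K * ((K + 2 - (a + b + c)) * (1 - β)) :=
    mul_nonneg hpK.le (mul_nonneg (by linarith [(Nat.cast_nonneg e : (0 : ℝ) ≤ e)]) hε.le)
  have key : β ^ a + β ^ K * β ^ b + β ^ K * β ^ c - β ^ K * (3 - 2 * (1 - β)) * β ^ e =
      (β ^ a - β ^ K * (1 - ((a : ℝ) - K) * (1 - β))) +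
      β ^ K * (β ^ b - (1 - b * (1 - β))) + β ^ K * (β ^ c - (1 - c * (1 - β))) +
      β ^ K * ((3 - 2 * (1 - β)) * (1 - β ^ e)) + β ^ K * ((K + 2 - (a + b + c)) * (1 - β)) := by
    ring
  rw [key]
  refine ⟨by linarith, fun heq => ?_⟩
  have z1 : β ^ K * (1 - ((a : ℝ) - K) * (1 - β)) = β ^ a := by linarith
  have z2 : β ^ K * (β ^ b - (1 - b * (1 - β))) = 0 := by linarith
  have z3 : β ^ K * (β ^ c - (1 - c * (1 - β))) = 0 := by linarith
  have z5 : β ^ K * ((K + 2 - (a + b + c)) * (1 - β)) = 0 := by linarith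
  have w2 : β ^ b - (1 - b * (1 - β)) = 0 := (mul_eq_zero.1 z2).resolve_left hpK.ne'
  have w3 : β ^ c - (1 - c * (1 - β)) = 0 := (mul_eq_zero.1 z3).resolve_left hpK.ne'
  have w5 : (K : ℝ) + 2 - (a + b + c) = 0 :=
    (mul_eq_zero.1 ((mul_eq_zero.1 z5).resolve_left hpK.ne')).resolve_right hε.ne'
  have w6 : a + b + c = K + 2 := by
    have : ((a + b + c : ℕ) : ℝ) = ((K + 2 : ℕ) : ℝ) := by push_cast; linarith
    exact_mod_cast this
  refine ⟨s2 z1, ?_, ?_, by omega, w6⟩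
  · by_contra hcon
    have := b2 (by omega)
    linarith
  · by_contra hcon
    have := c2 (by omega)
    linarith

end Q224.BP
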