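import Pool.Agent.Q224.BP.Arg

/-!
# The case `β = 0`
-/

set_option autoImplicit false

namespace Q224.BP

open Finset

variable {q d : ℕ}

theorem zero_pow_cnt (τ : Fin d → Fin q) (c : Fin q) :
    (0 : ℝ) ^ cnt τ c = if c ∈ univ.image τ then 0 else 1 := by
  split_ifs with h
  · obtain ⟨i, -, hi⟩ := mem_image.1 h
    exact zero_pow (cnt_pos hi).ne'
  · rw [cnt_eq_zero (fun i hi => h (mem_image.2 ⟨i, mem_univ i, hi⟩)), pow_zero]

theorem not_convex_zero (hd : 2 ≤ d) (hq : d + 2 ≤ q) : ¬ Convex ℝ (Fprod q d 0) := by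
  classical
  intro hconv
  set T : Finset (Fin q) := univ.filter (fun c => c.val ≤ d) with hT
  set N : Fin q := ⟨d + 1, by omega⟩ with hN
  set ι : Fin (d + 1) → Fin q := fun c => ⟨c.val, by have := c.isLt; omega⟩ with hι
  have hιinj : Function.Injective ι := by
    intro a b h
    have : (ι a).val = (ι b).val := by rw [h]
    exact Fin.ext this
  have hTimg : T = univ.image ι := by
    ext c
    simp only [hT, mem_filter, mem_univ, true_and, mem_image]
    constructor
    · intro h
      exact ⟨⟨c.val, by omega⟩, Fin.ext rfl⟩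
    · rintro ⟨a, rfl⟩
      have := a.isLt
      simp only [hι]
      omega
  have hTcard : T.card = d + 1 := by
    rw [hTimg, card_image_of_injective _ hιinj, card_univ, Fintype.card_fin]
  have hNT : N ∉ T := by
    simp only [hT, hN, mem_filter, mem_univ, true_and]
    omega
  -- the functional
  set a : Fin q → ℝ := fun c => (if c ∈ T then 1 else 0) - (if c = N then 1 else 0) with ha
  have hsum : ∀ v : Fin q → ℝ, ∑ c, a c * v c = ∑ c ∈ T, v c - v N := by
    intro v
    simp only [ha, sub_mul, sum_sub_distrib, ite_mul, one_mul, zero_mul, sum_ite_eq', mem_univ,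
      if_true]
    congr 1
    rw [← sum_filter]
    congr 1
    ext c
    simp
  have hval : ∀ τ : Fin d → Fin q, ∑ c ∈ T, (0 : ℝ) ^ cnt τ c = ((T \ univ.image τ).card : ℝ) := by
    intro τ
    simp only [zero_pow_cnt]
    rw [← sum_filter_add_sum_filter_not T (fun c => c ∈ univ.image τ)]
    rw [sum_congr rfl (g := fun _ => (0 : ℝ)) (fun c hc => by
      rw [if_pos (mem_filter.1 hc).2]), sum_const_zero, zero_add]
    rw [sum_congr rfl (g := fun _ => (1 : ℝ)) (fun c hc => by
      rw [if_neg (mem_filter.1 hc).2])]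
    rw [sum_const, nsmul_eq_mul, mul_one]
    congr 2
    ext c
    simp
  have himg : ∀ τ : Fin d → Fin q, (univ.image τ).card ≤ d := by
    intro τ
    refine card_image_le.trans ?_
    simp
  have hge : ∀ τ : Fin d → Fin q, 1 ≤ (T \ univ.image τ).card := by
    intro τ
    have h1 := le_card_sdiff (univ.image τ) T
    have h2 := himg τ
    omega
  have hle1 : ∀ τ : Fin d → Fin q, (0 : ℝ) ^ cnt τ N ≤ 1 := by
    intro τ
    rw [zero_pow_cnt]
    split_ifs <;> norm_num
  have hpos : ∀ τ : Fin d → Fin q, 0 ≤ ∑ c, a c * (0 : ℝ) ^ cnt τ c := by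
    intro τ
    rw [hsum (fun c => (0 : ℝ) ^ cnt τ c), hval]
    have h1 : (1 : ℝ) ≤ ((T \ univ.image τ).card : ℝ) := by exact_mod_cast hge τ
    linarith [hle1 τ]
  have hzero : ∀ τ : Fin d → Fin q, ∑ c, a c * (0 : ℝ) ^ cnt τ c = 0 →
      Function.Injective τ ∧ ∀ i, τ i ∈ T := by
    intro τ h
    rw [hsum (fun c => (0 : ℝ) ^ cnt τ c), hval] at h
    have h1 : ((T \ univ.image τ).card : ℝ) ≤ 1 := by linarith [hle1 τ]
    have h2 : (T \ univ.image τ).card ≤ 1 := by exact_mod_cast h1
    have h3 : (T \ univ.image τ).card + (T ∩ univ.image τ).card = T.card :=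
      card_sdiff_add_card_inter T (univ.image τ)
    have h4 : (T ∩ univ.image τ).card ≤ (univ.image τ).card := card_le_card inter_subset_right
    have h5 := himg τ
    have h6 : (univ.image τ).card = d := by omega
    have h7 : T ∩ univ.image τ = univ.image τ := eq_of_subset_of_card_le inter_subset_right (by omega)
    refine ⟨?_, fun i => ?_⟩
    · have : (univ.image τ).card = (univ : Finset (Fin d)).card := by rw [h6]; simp
      rw [card_image_iff] at this
      intro x y hxy
      exact this (mem_coe.2 (mem_univ x)) (mem_coe.2 (mem_univ y)) hxy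
    · have : τ i ∈ T ∩ univ.image τ := by
        rw [h7]
        exact mem_image.2 ⟨i, mem_univ i, rfl⟩
      exact (mem_inter.1 this).1
  -- the points
  set t : Fin (d + 1) → Fin d → Fin q := fun c i => ι (c.succAbove i) with ht
  have htim : ∀ c b, b ∈ univ.image (t c) ↔ b ∈ T ∧ b ≠ ι c := by
    intro c b
    simp only [ht, mem_image, mem_univ, true_and, hTimg]
    constructor
    · rintro ⟨i, rfl⟩
      exact ⟨⟨_, rfl⟩, fun h => Fin.succAbove_ne c i (hιinj h)⟩
    · rintro ⟨⟨e, rfl⟩, hne⟩
      have : e ≠ c := fun h => hne (by rw [h])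
      obtain ⟨i, hi⟩ := Fin.exists_succAbove_eq this
      exact ⟨i, by rw [hi]⟩
  set x : Fin q → ℝ := ∑ c : Fin (d + 1), (1 / ((d : ℝ) + 1)) • pt 0 (t c) with hx
  have hxmem : x ∈ Fprod q d 0 := by
    refine hconv.sum_mem (fun c _ => by positivity) ?_ (fun c _ => pt_mem 0 (t c))
    rw [sum_const, card_univ, Fintype.card_fin, nsmul_eq_mul]
    push_cast
    field_simp
  have hden : ∀ c, ∑ b, (0 : ℝ) ^ cnt (t c) b = (q : ℝ) - d := by
    intro c
    simp only [zero_pow_cnt]
    rw [← sum_filter_add_sum_filter_not univ (fun b => b ∈ univ.image (t c))]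
    rw [sum_congr rfl (g := fun _ => (0 : ℝ)) (fun b hb => by
      rw [if_pos (mem_filter.1 hb).2]), sum_const_zero, zero_add]
    rw [sum_congr rfl (g := fun _ => (1 : ℝ)) (fun b hb => by
      rw [if_neg (mem_filter.1 hb).2])]
    rw [sum_const, nsmul_eq_mul, mul_one]
    have h1 : (univ.filter (fun b => b ∈ univ.image (t c))).card +
        (univ.filter (fun b => ¬ b ∈ univ.image (t c))).card = (univ : Finset (Fin q)).card :=
      card_filter_add_card_filter_not _
    have h2 : (univ.filter (fun b => b ∈ univ.image (t c))).card = d := by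
      have : univ.filter (fun b => b ∈ univ.image (t c)) = univ.image (t c) := by
        ext b
        simp
      rw [this, card_image_of_injective]
      · simp
      · intro i j hij
        exact Fin.succAbove_right_injective (hιinj hij)
    rw [h2, card_univ, Fintype.card_fin] at h1
    have h3 : (d : ℝ) + ((univ.filter (fun b => ¬ b ∈ univ.image (t c))).card : ℝ) = q := by
      exact_mod_cast h1
    linarith
  have hqd : (0 : ℝ) < (q : ℝ) - d := by
    have : ((d + 2 : ℕ) : ℝ) ≤ q := by exact_mod_cast hq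
    push_cast at this
    linarith
  have hd1 : (0 : ℝ) < (d : ℝ) + 1 := by positivity
  have hxb : ∀ b, x b = (1 / ((d : ℝ) + 1)) * ((∑ c : Fin (d + 1),
      if b ∈ univ.image (t c) then (0 : ℝ) else 1) / ((q : ℝ) - d)) := by
    intro b
    simp only [hx, Finset.sum_apply, Pi.smul_apply, smul_eq_mul, pt, hden]
    simp only [zero_pow_cnt]
    rw [← mul_sum, sum_div]
  have hxN : x N = 1 / ((q : ℝ) - d) := by
    rw [hxb]
    rw [sum_congr rfl (g := fun _ => (1 : ℝ)) (fun c _ => by
      rw [if_neg]
      intro h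
      exact hNT ((htim c N).1 h).1)]
    rw [sum_const, card_univ, Fintype.card_fin, nsmul_eq_mul]
    push_cast
    field_simp
  have hxT : ∀ e, x (ι e) = (1 / ((d : ℝ) + 1)) * (1 / ((q : ℝ) - d)) := by
    intro e
    rw [hxb]
    congr 2
    rw [sum_eq_single e]
    · rw [if_neg]
      intro h
      exact ((htim e (ι e)).1 h).2 rfl
    · intro c _ hc
      rw [if_pos]
      rw [htim]
      refine ⟨?_, fun h => hc (hιinj h).symm⟩
      rw [hTimg]
      exact mem_image.2 ⟨e, mem_univ e, rfl⟩
    · intro h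
      exact absurd (mem_univ _) h
  have hfx : ∑ c, a c * x c = 0 := by
    rw [hsum, hxN, hTimg, sum_image (fun a _ b _ h => hιinj h)]
    simp only [hxT]
    rw [sum_const, card_univ, Fintype.card_fin, nsmul_eq_mul]
    push_cast
    field_simp
    ring
  obtain ⟨p, hp, hxF⟩ := hxmem
  set μ : (Fin d → Fin q) → ℝ := fun τ => ∏ i, p i (τ i) with hμ
  set s := ∑ b, G q d 0 μ b with hs
  have hGnn : ∀ c, 0 ≤ G q d 0 μ c := by
    intro c
    unfold G
    refine sum_nonneg fun τ _ => mul_nonneg (prod_nonneg' hp τ) ?_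
    rw [prod_A]
    exact pow_nonneg le_rfl _
  have hsnn : 0 ≤ s := sum_nonneg fun c _ => hGnn c
  have hs0 : s ≠ 0 := by
    intro h
    have h3 : F q d 0 μ N = 0 := by
      show G q d 0 μ N / s = 0
      rw [h, div_zero]
    rw [← hxF, hxN] at h3
    have := one_div_pos.2 hqd
    linarith
  have hspos : 0 < s := lt_of_le_of_ne hsnn hs0.symm
  have hG : ∀ c, G q d 0 μ c = s * x c := by
    intro c
    rw [hxF]
    show _ = s * (G q d 0 μ c / s)
    field_simp
  have hgood : ∀ τ : Fin d → Fin q, Good p τ → Function.Injective τ ∧ ∀ i, τ i ∈ T := by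
    intro τ hτ
    refine hzero τ (vanish (β := 0) hp a hpos ?_ hτ)
    have : ∑ c, a c * G q d 0 (fun τ => ∏ i, p i (τ i)) c = s * ∑ c, a c * x c := by
      rw [mul_sum]
      refine sum_congr rfl fun c _ => ?_
      rw [hG c]
      ring
    rw [this, hfx, mul_zero]
  -- supports
  set P : Fin d → Finset (Fin q) := fun i => univ.filter (fun c => 0 < p i c) with hP
  have hPne : ∀ i, ∃ c, 0 < p i c := by
    intro i
    by_contra hcon
    push Not at hcon
    have h1 := (hp i).2
    have h2 : ∑ c, p i c ≤ 0 := sum_nonpos fun c _ => hcon c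
    linarith
  choose τ0 hτ0 using hPne
  have hupd : ∀ i c, c ∈ P i → Good p (Function.update τ0 i c) := by
    intro i c hc j
    rcases eq_or_ne j i with rfl | hj
    · rw [Function.update_self]
      exact (mem_filter.1 hc).2
    · rw [Function.update_of_ne hj]
      exact hτ0 j
  have hPT : ∀ i, P i ⊆ T := by
    intro i c hc
    have := (hgood _ (hupd i c hc)).2 i
    rwa [Function.update_self] at this
  have hdisj : ∀ i j, i ≠ j → Disjoint (P i) (P j) := by
    intro i j hij
    rw [disjoint_left]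
    intro c hi hj
    have hg : Good p (Function.update (Function.update τ0 i c) j c) := by
      intro k
      rcases eq_or_ne k j with rfl | hk
      · rw [Function.update_self]
        exact (mem_filter.1 hj).2
      · rw [Function.update_of_ne hk]
        exact hupd i c hi k
    have h1 := (hgood _ hg).1
    apply hij
    apply h1
    rw [Function.update_self, Function.update_of_ne hij, Function.update_self]
  have hcard : ∑ i, (P i).card ≤ d + 1 := by
    rw [← hTcard, ← card_biUnion (fun i _ j _ hij => hdisj i j hij)]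
    exact card_le_card (biUnion_subset.2 fun i _ => hPT i)
  obtain ⟨i, hi⟩ : ∃ i, (P i).card ≤ 1 := by
    by_contra hcon
    push Not at hcon
    have : ∑ i : Fin d, 2 ≤ ∑ i, (P i).card := sum_le_sum fun i _ => hcon i
    rw [sum_const, card_univ, Fintype.card_fin, smul_eq_mul] at this
    omega
  have hτi : τ0 i ∈ P i := mem_filter.2 ⟨mem_univ _, hτ0 i⟩
  have hTi := hPT i hτi
  rw [hTimg] at hTi
  obtain ⟨e, -, he⟩ := mem_image.1 hTi
  obtain ⟨τ, hτ, hlt⟩ := exists_good (β := 0) hp (coef (τ0 i) (τ0 i) (τ0 i) (τ0 i) 1 0 0 0) (by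
    rw [sum_coef (v := G q d 0 (fun τ => ∏ i, p i (τ i)))]
    have : G q d 0 (fun τ => ∏ i, p i (τ i)) (τ0 i) = s * x (τ0 i) := hG _
    rw [this, ← he, hxT]
    have : 0 < s * (1 / ((d : ℝ) + 1) * (1 / ((q : ℝ) - d))) :=
      mul_pos hspos (mul_pos (one_div_pos.2 hd1) (one_div_pos.2 hqd))
    linarith)
  rw [sum_coef (v := fun c => (0 : ℝ) ^ cnt τ c)] at hlt
  have h1 : τ i ∈ P i := mem_filter.2 ⟨mem_univ _, hτ i⟩
  have h2 : τ i = τ0 i := card_le_one.1 hi _ h1 _ hτi
  rw [zero_pow (cnt_pos h2).ne'] at hlt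
  simp at hlt

end Q224.BP
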